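import Pool.Agent.MP_dbd6a6_co.H70.Spec

/-!
Strong log-concavity of the binomial transforms of the moments.
-/

open Finset Real

noncomputable section

namespace Pool.Agent.MP_dbd6a6_co.H2

open H92 H70

variable {y : ℝ}

lemma ii (hy : 0 < y) {g : ℝ → ℝ} (hg : Continuous g) (a b : ℝ) :
    IntervalIntegrable (fun θ => wt y θ * g (xx y θ)) MeasureTheory.volume a b :=
  ((continuous_wt hy).mul (hg.comp (continuous_xx y))).intervalIntegrable a b

lemma IA_mono (hy : 0 < y) {g h : ℝ → ℝ} (hg : Continuous g) (hh : Continuous h)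
    (H : ∀ t, 0 < t → g t ≤ h t) : IA y g ≤ IA y h :=
  intervalIntegral.integral_mono_on pi_pos.le (ii hy hg _ _) (ii hy hh _ _) fun θ _ =>
    mul_le_mul_of_nonneg_left (H _ (xx_pos hy θ)) (wt_nonneg hy θ)

lemma IA_sub_one (hy : 0 < y) {g : ℝ → ℝ} (hg : Continuous g) :
    IA y (fun t => g t - 1) = IA y g - 1 := by
  have h := intervalIntegral.integral_sub (ii hy hg 0 π) ((continuous_wt hy).intervalIntegrable 0 π)
  rw [mom_zero hy] at h
  unfold IA
  rw [← h]
  simp only [mul_sub, mul_one]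

lemma IL_nonneg (hy : 0 < y) {g : ℝ → ℝ} (H : ∀ t, 0 < t → 0 ≤ g t) : 0 ≤ IL y g :=
  intervalIntegral.integral_nonneg (by linarith [pi_pos]) fun θ _ =>
    mul_nonneg (wt_nonneg hy θ) (H _ (xx_pos hy θ))

lemma IR_nonneg (hy : 0 < y) {g : ℝ → ℝ} (H : ∀ t, 0 < t → 0 ≤ g t) : 0 ≤ IR y g :=
  intervalIntegral.integral_nonneg (by linarith [pi_pos]) fun θ _ =>
    mul_nonneg (wt_nonneg hy θ) (H _ (xx_pos hy θ))

lemma IR_sub (hy : 0 < y) {g h : ℝ → ℝ} (hg : Continuous g) (hh : Continuous h) :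
    IR y (fun t => g t - h t) = IR y g - IR y h := by
  unfold IR
  rw [← intervalIntegral.integral_sub (ii hy hg _ _) (ii hy hh _ _)]
  simp only [mul_sub]

lemma IR_comb (hy : 0 < y) {g h k : ℝ → ℝ} (hg : Continuous g) (hh : Continuous h)
    (hk : Continuous k) (a b c : ℝ) :
    IR y (fun t => a * g t + b * h t + c * k t) = a * IR y g + b * IR y h + c * IR y k := by
  unfold IR
  rw [← intervalIntegral.integral_const_mul, ← intervalIntegral.integral_const_mul,
    ← intervalIntegral.integral_const_mul,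
    ← intervalIntegral.integral_add ((ii hy hg _ _).const_mul a) ((ii hy hh _ _).const_mul b),
    ← intervalIntegral.integral_add
      (((ii hy hg _ _).const_mul a).add ((ii hy hh _ _).const_mul b)) ((ii hy hk _ _).const_mul c)]
  refine intervalIntegral.integral_congr fun θ _ => ?_
  ring

lemma pow_le_exp {a : ℝ} (ha : 0 ≤ 1 + a) (p : ℕ) : (1 + a) ^ p ≤ exp (p * a) := by
  rw [exp_nat_mul]
  exact pow_le_pow_left₀ ha (by linarith [add_one_le_exp a]) p

lemma chord {s a : ℝ} (hs : 0 ≤ s) (hs1 : s ≤ 1) (ha : 0 ≤ a) (p : ℕ) :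
    (1 + s * a) ^ p - 1 ≤ s * ((1 + a) ^ p - 1) := by
  induction p with
  | zero => simp
  | succ p ih =>
    have h1 : 0 ≤ (1 + s * a) ^ p - 1 := sub_nonneg.2 (one_le_pow₀ (by nlinarith))
    have h2 : (1 + s * a) * ((1 + s * a) ^ p - 1) ≤ (1 + a) * (s * ((1 + a) ^ p - 1)) :=
      mul_le_mul (by nlinarith) ih h1 (by linarith)
    calc (1 + s * a) ^ (p + 1) - 1 = (1 + s * a) * ((1 + s * a) ^ p - 1) + s * a := by ring
      _ ≤ (1 + a) * (s * ((1 + a) ^ p - 1)) + s * a := by linarith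
      _ = s * ((1 + a) ^ (p + 1) - 1) := by ring

lemma exp_quad {v : ℝ} (h0 : 0 ≤ v) (h1 : v ≤ 3.01) :
    exp (1.125 * v) ≤ 1 + 1.125 * v + 3.2 * v ^ 2 := by
  set z := 0.28125 * v with hz
  have hz0 : 0 ≤ z := by positivity
  have hz1 : z ≤ 0.85 := by rw [hz]; linarith
  have e1 : exp z ≤ 1 + z + 0.75 * z ^ 2 := by
    have := exp_bound' hz0 (by linarith) (n := 2) (by norm_num)
    simp only [sum_range_succ, range_zero, sum_empty, Nat.factorial] at this
    norm_num at this
    linarith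
  have hzz : z ^ 2 ≤ 0.7225 := by nlinarith
  have e2 : (1 + z + 0.75 * z ^ 2) ^ 2 ≤ 1 + 2 * z + 4.2 * z ^ 2 := by
    nlinarith [mul_le_mul_of_nonneg_left hz1 (sq_nonneg z), mul_le_mul_of_nonneg_left hzz (sq_nonneg z)]
  have e3 : (1 + 2 * z + 4.2 * z ^ 2) ^ 2 ≤ 1 + 4 * z + 40 * z ^ 2 := by
    nlinarith [mul_le_mul_of_nonneg_left hz1 (sq_nonneg z), mul_le_mul_of_nonneg_left hzz (sq_nonneg z)]
  have e4 : exp (1.125 * v) = (exp z ^ 2) ^ 2 := by
    rw [← pow_mul, ← exp_nat_mul, hz]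
    congr 1
    push_cast
    ring
  have e5 : exp z ^ 2 ≤ 1 + 2 * z + 4.2 * z ^ 2 :=
    (pow_le_pow_left₀ (exp_pos z).le e1 2).trans e2
  have e6 := (pow_le_pow_left₀ (by positivity) e5 2).trans e3
  rw [e4]
  rw [hz] at e6
  nlinarith [sq_nonneg v]

lemma exp_neg_le : exp (-4.5) ≤ 1 / 88 := by
  have h1 : (2.7182818283 : ℝ) < exp 1 := exp_one_gt_d9
  have h2 : (1.625 : ℝ) ≤ exp 0.5 := by
    have := quadratic_le_exp_of_nonneg (x := 0.5) (by norm_num)
    norm_num at this ⊢
    linarith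
  have h3 : exp 4.5 = exp 1 ^ 4 * exp 0.5 := by
    rw [← exp_nat_mul, ← exp_add]
    norm_num
  have h4 : (54.5 : ℝ) ≤ exp 1 ^ 4 :=
    le_trans (by norm_num) (pow_le_pow_left₀ (by norm_num) h1.le 4)
  have h5 : (88 : ℝ) ≤ exp 4.5 := by
    rw [h3]
    nlinarith
  rw [exp_neg, ← one_div]
  exact one_div_le_one_div_of_le (by norm_num) h5

lemma key {u : ℝ} {i j p : ℕ} (hu0 : 0 ≤ u) (hu1 : u ≤ 1) (hj : 1 ≤ j) (hi : j + 1 ≤ i)
    (hp : 11.5 * ((j : ℝ) + 1) ^ 2 ≤ p) :
    (1 + u / i) ^ (p + (6 * i + j)) ≤ (1 + u / j) ^ p * exp (-4.5 * u) := by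
  have hj' : (1 : ℝ) ≤ j := by exact_mod_cast hj
  have hi' : (j : ℝ) + 1 ≤ i := by exact_mod_cast hi
  have hi0 : (0 : ℝ) < i := by linarith
  have h1 : (1 + u / i) ^ (6 * i + j) ≤ exp (7 * u) := by
    refine (pow_le_exp (by positivity) _).trans (exp_le_exp.2 ?_)
    push_cast
    rw [← mul_div_assoc, div_le_iff₀ hi0]
    nlinarith
  have h2 : 1 + u / i ≤ (1 + u / j) * (1 + -(u / ((j : ℝ) + 1) ^ 2)) := by
    have a1 : u / i ≤ u / ((j : ℝ) + 1) := div_le_div_of_nonneg_left hu0 (by linarith) hi'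
    have a2 : (1 + u / j) * (1 + -(u / ((j : ℝ) + 1) ^ 2)) - (1 + u / ((j : ℝ) + 1)) =
        u * (1 - u) / (j * ((j : ℝ) + 1) ^ 2) := by
      field_simp
      ring
    have a3 : 0 ≤ u * (1 - u) / (j * ((j : ℝ) + 1) ^ 2) :=
      div_nonneg (mul_nonneg hu0 (by linarith)) (by positivity)
    linarith
  have h3 : u / ((j : ℝ) + 1) ^ 2 ≤ 1 := by
    rw [div_le_one (by positivity)]
    nlinarith
  have h4 : (1 + -(u / ((j : ℝ) + 1) ^ 2)) ^ p ≤ exp (-11.5 * u) := by
    refine (pow_le_exp (by linarith) _).trans (exp_le_exp.2 ?_)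
    have : 11.5 * u ≤ p * (u / ((j : ℝ) + 1) ^ 2) := by
      rw [← mul_div_assoc, le_div_iff₀ (by positivity)]
      nlinarith
    linarith
  have h5 : (1 + u / i) ^ p ≤ (1 + u / j) ^ p * exp (-11.5 * u) := by
    refine (pow_le_pow_left₀ (by positivity) h2 p).trans ?_
    rw [mul_pow]
    exact mul_le_mul_of_nonneg_left h4 (by positivity)
  have h6 : exp (-4.5 * u) = exp (-11.5 * u) * exp (7 * u) := by
    rw [← exp_add]
    congr 1
    ring
  rw [pow_add, h6, ← mul_assoc]
  exact mul_le_mul h5 h1 (by positivity) (by positivity)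

lemma theta_main (hM : MeasStmt) (y : ℝ) (i j m : ℕ) (hy : 0 < y) (hy1 : y ≤ 1 / 10 ^ 6)
    (hm : 199 ≤ m) (hj : 1 ≤ j) (hi : j + 1 ≤ i) (hjm : 11.5 * ((j : ℝ) + 1) ^ 2 + j ≤ m) :
    VI y (i * bet y) (m + 6 * i) ≤ 0.015 * VI y (j * bet y) (m - j) := by
  have hj' : (1 : ℝ) ≤ j := by exact_mod_cast hj
  have hi' : (j : ℝ) + 1 ≤ i := by exact_mod_cast hi
  have hm' : (199 : ℝ) ≤ m := by exact_mod_cast hm
  have hjle : j ≤ m := by
    have : (j : ℝ) ≤ m := by nlinarith
    exact_mod_cast this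
  obtain ⟨p, rfl⟩ : ∃ p, m = p + j := ⟨m - j, by omega⟩
  rw [Nat.add_sub_cancel, show p + j + 6 * i = p + (6 * i + j) by ring]
  push_cast at hjm hm'
  have hp : 11.5 * ((j : ℝ) + 1) ^ 2 ≤ p := by linarith
  have hp2 : 48.81 * ((j : ℝ) + 1) ≤ p := by
    rcases le_or_gt j 3 with h | h
    · have : (j : ℝ) ≤ 3 := by exact_mod_cast h
      linarith
    · have : (4 : ℝ) ≤ j := by exact_mod_cast h
      nlinarith
  have hb4 := hM.bet_ge y hy
  have hb5 := hM.bet_le y hy
  set b := bet y with hb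
  have hy2 : y ≤ 0.000001 := by norm_num at hy1 ⊢; linarith
  have hb0 : 0 < b := by linarith
  have hl0 : 0 < (j : ℝ) * b := by positivity
  set G : ℝ → ℝ := fun t => (1 + t / (j * b)) ^ p with hG
  set F : ℝ → ℝ := fun t => (1 + t / (i * b)) ^ (p + (6 * i + j)) with hF
  have hGc : Continuous G := by fun_prop
  have hFc : Continuous F := by fun_prop
  have hG1 : ∀ t, 0 ≤ t → 1 ≤ G t := fun t ht =>
    one_le_pow₀ (le_add_of_nonneg_right (by positivity))
  have hFG : ∀ t, 0 ≤ t → t ≤ b → F t ≤ G t * exp (-4.5 * (t / b)) := fun t h0 h1 => by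
    have := key (u := t / b) (by positivity) ((div_le_one hb0).2 h1) hj hi hp
    simp only [hF, hG]
    rwa [div_div, div_div, mul_comm b, mul_comm b] at this
  obtain ⟨q, rfl⟩ : ∃ q, p = q + 1 := ⟨p - 1, by
    have : (1 : ℝ) ≤ p := by linarith
    have : 1 ≤ p := by exact_mod_cast this
    omega⟩
  obtain ⟨t1, t2⟩ := hM.tilt y 12.2 G
    (fun t => ((q + 1 : ℕ) : ℝ) * (1 + t / (j * b)) ^ q * (1 / (j * b))) hy (by norm_num)
    (fun t _ => by
      exact (((hasDerivAt_id t).div_const ((j : ℝ) * b)).const_add 1).fun_pow (q + 1))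
    (Continuous.continuousOn (by fun_prop)) (fun t ht => by linarith [hG1 t ht.le])
    (fun t ht => by
      have h0 : 0 ≤ (1 + t / (j * b)) ^ q := pow_nonneg (by have := ht.1; positivity) _
      have h1 : 12.2 * (1 + t / (j * b)) ≤ ((q + 1 : ℕ) : ℝ) * (1 / (j * b)) := by
        rw [mul_one_div, le_div_iff₀ hl0]
        have : 12.2 * (1 + t / (j * b)) * (j * b) = 12.2 * (j * b + t) := by field_simp
        rw [this]
        nlinarith [ht.2]
      simp only [hG, pow_succ]
      nlinarith)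
  rw [← hb] at t1 t2
  set I := IR y G with hI
  have hI0 : 0 ≤ I := IR_nonneg hy fun t ht => by linarith [hG1 t ht.le]
  have hR : IR y (fun t => F t - 1) ≤ 0.01435 * I := by
    have h1 := hM.monoR y (fun t => F t - 1) (fun t => 1 / 88 * G t + 1.125 / 88 * ((b - t) * G t)
      + 3.2 / 88 * ((b - t) ^ 2 * G t)) hy (Continuous.continuousOn (by fun_prop))
      (Continuous.continuousOn (by fun_prop)) (fun t ht => by
        have h0 : 0 ≤ t := by linarith [ht.1]
        have hv0 : 0 ≤ b - t := by linarith [ht.2]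
        have a1 := hFG t h0 ht.2
        have a2 : exp (-4.5 * (t / b)) ≤ exp (-4.5) * exp (1.125 * (b - t)) := by
          rw [← exp_add]
          refine exp_le_exp.2 ?_
          have : t / b = 1 - (b - t) / b := by field_simp; ring
          have h4 : (b - t) / b ≤ (b - t) / 4 := div_le_div_of_nonneg_left hv0 (by norm_num) hb4
          rw [this]
          linarith
        have a3 := exp_quad hv0 (by linarith [ht.1])
        have a4 : exp (-4.5) * exp (1.125 * (b - t)) ≤
            1 / 88 * (1 + 1.125 * (b - t) + 3.2 * (b - t) ^ 2) :=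
          mul_le_mul exp_neg_le a3 (exp_pos _).le (by norm_num)
        have a5 := mul_le_mul_of_nonneg_left (a2.trans a4) (zero_le_one.trans (hG1 t h0))
        linarith)
    rw [IR_comb hy hGc (by fun_prop) (by fun_prop)] at h1
    norm_num at t1 t2 h1 ⊢
    linarith
  have hL : IL y (fun t => F t - 1) ≤ G (1 + y) * y := by
    refine hM.smallL y _ _ hy (by linarith [hG1 (1 + y) (by linarith)])
      (Continuous.continuousOn (by fun_prop)) fun t ht => ?_
    have h0 := ht.1.le
    have a1 := hFG t h0 (by linarith [ht.2])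
    have a2 : exp (-4.5 * (t / b)) ≤ 1 := exp_le_one_iff.2 (by
      have : 0 ≤ t / b := by positivity
      linarith)
    have a3 : F t ≤ G t := a1.trans (mul_le_of_le_one_right (zero_le_one.trans (hG1 t h0)) a2)
    have a4 := chord (s := t / (1 + y)) (a := (1 + y) / (j * b)) (by positivity)
      ((div_le_one (by linarith)).2 ht.2) (by positivity) (q + 1)
    have a5 : t / (1 + y) * ((1 + y) / (j * b)) = t / (j * b) := by field_simp
    rw [a5] at a4
    have a6 : t / (1 + y) ≤ t := div_le_self h0 (by linarith)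
    have a7 := hG1 (1 + y) (by linarith)
    have a8 : t / (1 + y) * (G (1 + y) - 1) ≤ t * (G (1 + y) - 1) :=
      mul_le_mul_of_nonneg_right a6 (by linarith)
    simp only [hG] at a3 a7 a8 ⊢
    nlinarith
  have hlow : 0.0056 * y * G 3.41 ≤ I :=
    hM.lower y _ G hy (by linarith) (by linarith [hG1 3.41 (by norm_num)]) hGc.continuousOn
      (fun t ht => by linarith [hG1 t (by linarith [ht.1])]) fun t ht =>
        pow_le_pow_left₀ (by positivity) (by gcongr; exact ht.1) _
  have hgap : 10 ^ 6 * G (1 + y) ≤ G 3.41 := by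
    set a : ℝ := 0.6 / ((j : ℝ) + 1) with ha
    have ha0 : 0 ≤ a := by positivity
    have a1 : (1 + a) * (1 + (1 + y) / (j * b)) ≤ 1 + 3.41 / (j * b) := by
      have e : 1 + 3.41 / (j * b) - (1 + a) * (1 + (1 + y) / (j * b)) =
          ((2.41 - y) * (j + 1) - 0.6 * (j * b + 1 + y)) / ((j * b) * (j + 1)) := by
        rw [ha]
        field_simp
        ring
      have : 0 ≤ ((2.41 - y) * (j + 1) - 0.6 * (j * b + 1 + y)) / ((j * b) * (j + 1)) :=
        div_nonneg (by nlinarith) (by positivity)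
      linarith
    have a2 : 16 * (3 * (j + 1)) ≤ q + 1 := by
      have : ((16 * (3 * (j + 1)) : ℕ) : ℝ) ≤ ((q + 1 : ℕ) : ℝ) := by
        push_cast at hp2 ⊢
        linarith
      exact_mod_cast this
    have a3 : (2.8 : ℝ) ≤ (1 + a) ^ (3 * (j + 1)) := by
      refine le_trans (le_of_eq ?_) (one_add_mul_le_pow (by linarith) _)
      rw [ha]
      push_cast
      field_simp
      norm_num
    have a4 : (10 : ℝ) ^ 6 ≤ (1 + a) ^ (q + 1) := by
      refine le_trans ?_ (pow_le_pow_right₀ (by linarith) a2)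
      rw [mul_comm 16, pow_mul]
      exact le_trans (by norm_num) (pow_le_pow_left₀ (by norm_num) a3 16)
    refine le_trans ?_ (pow_le_pow_left₀ (by positivity) a1 (q + 1))
    rw [mul_pow]
    exact mul_le_mul_of_nonneg_right a4 (by positivity)
  have e1 : VI y (i * b) (q + 1 + (6 * i + j)) = IR y (fun t => F t - 1) + IL y (fun t => F t - 1) :=
    hM.split y _ hy (Continuous.continuousOn (by fun_prop))
  have e2 : VI y (j * b) (q + 1) = IR y (fun t => G t - 1) + IL y (fun t => G t - 1) :=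
    hM.split y _ hy (Continuous.continuousOn (by fun_prop))
  have e3 : 0 ≤ IL y (fun t => G t - 1) := IL_nonneg hy fun t ht => by linarith [hG1 t ht.le]
  have e4 := hM.massR y hy
  rw [IR_sub hy hGc continuous_const] at e2
  have e5 : y ≤ G (1 + y) * y := le_mul_of_one_le_left hy.le (hG1 _ (by linarith))
  have e6 : 10 ^ 6 * (G (1 + y) * y) ≤ G 3.41 * y := by
    rw [← mul_assoc]
    exact mul_le_mul_of_nonneg_right hgap hy.le
  rw [e1, e2]
  linarith

theorem theta (hM : MeasStmt) : ThetaStmt where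
  theta := theta_main hM
  mono y lam lam' p p' hy hl hll hp := by
    have hl' : 0 < lam' := hl.trans_le hll
    refine IA_mono hy (by fun_prop) (by fun_prop) fun t ht => sub_le_sub_right ?_ _
    refine (pow_le_pow_left₀ (by positivity) (by gcongr) p').trans
      (pow_le_pow_right₀ (le_add_of_nonneg_right (by positivity)) hp)
  nonneg y lam p hy hl := by
    have := IA_mono hy (g := fun _ => 0) (h := fun t => (1 + t / lam) ^ p - 1) continuous_const
      (by fun_prop) fun t ht =>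
        sub_nonneg.2 (one_le_pow₀ (le_add_of_nonneg_right (by positivity)))
    simpa [IA, VI] using this
  le_exp y lam X p hy hl hp := by
    rw [← IA_sub_one hy (by fun_prop)]
    refine IA_mono hy (by fun_prop) (by fun_prop) fun t ht => sub_le_sub_right ?_ _
    refine (pow_le_exp (by positivity) p).trans (exp_le_exp.2 ?_)
    rw [← mul_div_assoc, div_le_iff₀ hl]
    nlinarith

end Pool.Agent.MP_dbd6a6_co.H2
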